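import Pool.Agent.Helper78.Avg.Cases
import Pool.Agent.Helper78.Mpc.MMain

/-!
# Average-case hardness for all models which are simulated in linear space

A model is given by a function `acc e x y S` which is computed in linear space: the machine with the
code `e` accepts the input word with the number `x` and the guess with the number `y` in the
simulation with the parameter `S < N x`.
-/

namespace Pool.Agent.Helper28.Gen

open Pool.Agent.Helper65.LinSpace Pool.Agent.Helper78.Avg Finset Filter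

variable {α : Type} [Ctx α]

/-- The number of accepting guesses and parameters, with advice. -/
noncomputable def UG (acc : ℕ → ℕ → ℕ → ℕ → ℕ) (N : ℕ → ℕ) (c e a x : ℕ) : ℕ :=
  ∑ y ∈ range (2 ^ (c * Nat.log 2 x + 1)), ∑ S ∈ range (N x), lt01 0 y *
    lt01 0 (acc e x (catN a y) S)

theorem LS.UG {acc : ℕ → ℕ → ℕ → ℕ → ℕ} {N : ℕ → ℕ}
    (hacc : LS (fun z : ℕ × ℕ × ℕ × ℕ => acc z.1 z.2.1 z.2.2.1 z.2.2.2)) (hN : LS N)
    (c : ℕ) {e b x : α → ℕ} (he : LS e) (hb : LS b) (hx : LS x) :
    LS (fun a => UG acc N c (e a) (b a) (x a)) := by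
  have hcat : LS (fun z : (α × ℕ) × ℕ => catN (b z.1.1) z.1.2) := by fun_prop
  have he' : LS (fun z : (α × ℕ) × ℕ => e z.1.1) := by fun_prop
  have hx' : LS (fun z : (α × ℕ) × ℕ => x z.1.1) := by fun_prop
  have harg : LS (fun z : (α × ℕ) × ℕ => (e z.1.1, x z.1.1, catN (b z.1.1) z.1.2, z.2)) := by
    fun_prop
  have hsim : LS (fun z : (α × ℕ) × ℕ => acc (e z.1.1) (x z.1.1) (catN (b z.1.1) z.1.2) z.2) :=
    LS.comp (f := fun z : (α × ℕ) × ℕ => (e z.1.1, x z.1.1, catN (b z.1.1) z.1.2, z.2)) hacc harg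
  have hone : LS (fun z : (α × ℕ) × ℕ => lt01 0 z.1.2 *
      lt01 0 (acc (e z.1.1) (x z.1.1) (catN (b z.1.1) z.1.2) z.2)) :=
    LS.mul (by fun_prop) (LS.lt01 (LS.const 0) hsim)
  have hle : ∀ (y v : ℕ), lt01 0 y * lt01 0 v ≤ 1 := by
    intro y v
    calc _ ≤ 1 * 1 := Nat.mul_le_mul (lt01_le_one _ _) (lt01_le_one _ _)
      _ = 1 := rfl
  have hNx : LS (fun a => N (x a)) := LS.comp (f := x) hN hx
  unfold Gen.UG
  refine LS.sum_le (N := fun a => 2 ^ (c * Nat.log 2 (x a) + 1))
    (B := fun a => N (x a) * 1) (f := fun a y =>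
      ∑ S ∈ range (N (x a)), lt01 0 y * lt01 0 (acc (e a) (x a) (catN (b a) y) S)) ?_ ?_ ?_ ?_
  · exact LS.sum_le (α := α × ℕ) (N := fun z => N (x z.1)) (B := fun _ => 1)
      (f := fun z S => lt01 0 z.2 * lt01 0 (acc (e z.1) (x z.1) (catN (b z.1) z.2) S))
      hone (LS.comp (f := fun z : α × ℕ => z.1) hNx (by fun_prop)) (by fun_prop)
      (fun z S _ => hle _ _)
  · refine LS.pow_of_le (f := fun _ => 2) (g := fun a => c * Nat.log 2 (x a) + 1)
      (C := fun a => (x a + 2) ^ (2 * (c + 1))) (by fun_prop) (by fun_prop) (by fun_prop)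
      fun a => ?_
    refine le_trans ?_ (Pool.Agent.Helper65.LinSpace.two_pow_log_le (x a) (c + 1))
    refine Nat.pow_le_pow_right (by norm_num) ?_
    ring_nf
    omega
  · exact LS.mul hNx (LS.const 1)
  · intro a y _
    refine (sum_le_sum (g := fun _ => 1) fun r _ => hle _ _).trans ?_
    simp

theorem UG_spec {acc : ℕ → ℕ → ℕ → ℕ → ℕ} {N : ℕ → ℕ} (c e : ℕ) {w a : List Bool}
    {Acc Good : List Bool → Prop}
    (h1 : ∀ (y : List Bool), ∀ S < N (num w), acc e (num w) (num (a ++ y)) S ≠ 0 → Acc y)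
    (h2 : ∀ y : List Bool, Good y → ∃ S < N (num w), acc e (num w) (num (a ++ y)) S ≠ 0) :
    (UG acc N c e (num a) (num w) ≠ 0 → ∃ y, Acc y) ∧
    ∀ y : List Bool, y.length ≤ c * w.length → Good y → UG acc N c e (num a) (num w) ≠ 0 := by
  have hlog : Nat.log 2 (num w) = w.length := Pool.Agent.Helper65.LinSpace.log_num w
  unfold UG
  rw [hlog]
  constructor
  · intro hne
    rw [Ne, sum_eq_zero_iff] at hne
    push Not at hne
    obtain ⟨y, _, hne⟩ := hne
    rw [Ne, sum_eq_zero_iff] at hne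
    push Not at hne
    obtain ⟨S, hS, hne⟩ := hne
    rw [mem_range] at hS
    have hy0 : 0 < y := by
      by_contra h
      apply hne
      rw [lt01, if_neg h, zero_mul]
    obtain ⟨v, rfl⟩ := Pool.Agent.Helper65.LinSpace.exists_num hy0
    rw [← num_append] at hne
    refine ⟨v, h1 v S hS fun h => ?_⟩
    apply hne
    rw [h, lt01, lt01, if_neg (lt_irrefl 0), mul_zero]
  · intro y hy hg
    obtain ⟨S, hS, hacc⟩ := h2 y hg
    intro h0
    rw [sum_eq_zero_iff] at h0
    have hy1 : num y ∈ range (2 ^ (c * w.length + 1)) := by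
      rw [mem_range]
      have h4 := Nat.lt_pow_succ_log_self (b := 2) (by norm_num) (num y)
      rw [Pool.Agent.Helper65.LinSpace.log_num] at h4
      exact lt_of_lt_of_le h4 (Nat.pow_le_pow_right (by norm_num) (by omega))
    have h5 := h0 (num y) hy1
    rw [sum_eq_zero_iff] at h5
    have h6 := h5 S (mem_range.2 hS)
    rw [← num_append, lt01, lt01, if_pos (Pool.Agent.Helper65.LinSpace.num_pos y),
      if_pos (Nat.pos_of_ne_zero hacc)] at h6
    omega

/-- **Average-case hardness with advice, for every model.** There is one language, such that for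
all machines `A`, given by the predicates `Acc n w y` (`A` accepts `w` with the guess `y`) and
`Good n w y` (it does so within the bounds), which have a code `e` (for long words), the machine is
correct on at most about half of the words. -/
theorem avg_main (acc : ℕ → ℕ → ℕ → ℕ → ℕ) (N : ℕ → ℕ)
    (hacc : LS (fun z : ℕ × ℕ × ℕ × ℕ => acc z.1 z.2.1 z.2.2.1 z.2.2.2)) (hN : LS N) (c : ℕ) :
    ∃ (L : Set (List Bool)) (s : ℕ → List Bool), DLINSPACE L ∧
      (∀ n, (s n).length = n) ∧
      (∀ w, w ∈ L ↔ Odd ((List.zipWith and (s w.length) w).count true)) ∧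
      ∀ (Acc Good : List Bool → List Bool → Prop),
        (∃ e n₀ : ℕ, ∀ w y : List Bool, n₀ ≤ w.length →
          (∀ S < N (num w), acc e (num w) (num y) S ≠ 0 → Acc w y) ∧
          (Good w y → ∃ S < N (num w), acc e (num w) (num y) S ≠ 0)) →
        ∃ c' : ℝ, ∀ (n : ℕ) (α : List Bool), ∀ M, M = L ∨ M = Lᶜ →
          ({w : List Bool | w.length = n ∧ (∀ v, Acc w (α ++ v) → w ∈ M) ∧
            (w ∈ M → ∃ v : List Bool, v.length ≤ c * n ∧ Good w (α ++ v))}.ncard : ℝ) ≤
          2 ^ n / 2 + c' * ((min α.length (n - α.length) : ℕ) + 1) *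
            2 ^ (((n : ℝ) + α.length) / 2) := by
  obtain ⟨L, s, h1, h2, h3, h4⟩ := exists_hard (U := UG acc N c)
    (LS.app3 fun he ha hx => LS.UG hacc hN c he ha hx)
  refine ⟨L, s, h1, h2, h3, fun Acc Good ⟨e, n₀, he⟩ => ?_⟩
  refine ⟨2 ^ (e + 1 + n₀), fun n α M hM => ?_⟩
  rcases Nat.lt_or_ge n n₀ with hn | hn
  · exact small_case (e := e) α (fun w hw => hw.1) hn
  · refine large_case α ?_
    have key : {w : List Bool | w.length = n ∧ (∀ v, Acc w (α ++ v) → w ∈ M) ∧
            (w ∈ M → ∃ v : List Bool, v.length ≤ c * n ∧ Good w (α ++ v))} ⊆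
        {w : List Bool | w.length = n ∧ (UG acc N c e (num α) (num w) ≠ 0 ↔ w ∈ M)} := by
      rintro w ⟨hw, hw1, hw2⟩
      obtain ⟨hs, hc⟩ := UG_spec (acc := acc) (N := N) c e (w := w) (a := α)
        (Acc := fun v => Acc w (α ++ v)) (Good := fun v => Good w (α ++ v))
        (fun y S hS h => (he w (α ++ y) (by omega)).1 S hS h)
        (fun y hy => (he w (α ++ y) (by omega)).2 hy)
      refine ⟨hw, fun h => ?_, fun h => ?_⟩
      · obtain ⟨v, hacc⟩ := hs h
        exact hw1 v hacc
      · obtain ⟨v, hv, hgood⟩ := hw2 h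
        subst hw
        exact hc v hv hgood
    refine ncard_le key (fun w hw => hw.1) ?_
    rcases hM with rfl | rfl
    · exact (h4 e n α).1
    · exact (h4 e n α).2

/-- Languages accepted in a model are in linear space. -/
theorem lin_main (acc : ℕ → ℕ → ℕ → ℕ → ℕ) (N : ℕ → ℕ)
    (hacc : LS (fun z : ℕ × ℕ × ℕ × ℕ => acc z.1 z.2.1 z.2.2.1 z.2.2.2)) (hN : LS N) (c : ℕ)
    (L : Set (List Bool)) (Acc Good : List Bool → List Bool → Prop)
    (hc : ∃ e n₀ : ℕ, ∀ w y : List Bool, n₀ ≤ w.length →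
      (∀ S < N (num w), acc e (num w) (num y) S ≠ 0 → Acc w y) ∧
      (Good w y → ∃ S < N (num w), acc e (num w) (num y) S ≠ 0))
    (h1 : ∀ w y, Acc w y → w ∈ L)
    (h2 : ∀ w ∈ L, ∃ y : List Bool, y.length ≤ c * w.length ∧ Good w y) : DLINSPACE L := by
  classical
  obtain ⟨e, n₀, he⟩ := hc
  have hrun : ∀ w : List Bool, n₀ ≤ w.length → (w ∈ L ↔ UG acc N c e (num []) (num w) ≠ 0) := by
    intro w hw
    obtain ⟨hs, hc⟩ := UG_spec (acc := acc) (N := N) c e (w := w) (a := [])
        (Acc := fun v => Acc w v) (Good := fun v => Good w v)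
        (fun y S hS h => (he w y hw).1 S hS h)
        (fun y hy => (he w y hw).2 hy)
    constructor
    · intro hwL
      obtain ⟨y, hy, hg⟩ := h2 w hwL
      exact hc y hy hg
    · intro h
      obtain ⟨y, hy⟩ := hs h
      exact h1 w y hy
  let B : ℕ := tab 2 (2 ^ (n₀ + 1)) fun x => if ∃ w ∈ L, num w = x then 1 else 0
  refine LS.dlinspace (F := fun x => ifz (le01 n₀ (Nat.log 2 x)) (dig 2 B x)
    (UG acc N c e (num []) x)) ?_ L ?_
  · exact LS.ifz (by fun_prop) (by fun_prop) (LS.UG hacc hN c (LS.const e) (LS.const _) LS.id)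
  · intro w
    by_cases h : n₀ ≤ w.length
    · have h1 : le01 n₀ (Nat.log 2 (num w)) = 1 := by
        rw [Pool.Agent.Helper65.LinSpace.log_num, le01, if_pos h]
      simp only [h1]
      rw [ifz_ne one_ne_zero]
      exact hrun w h
    · have h1 : le01 n₀ (Nat.log 2 (num w)) = 0 := by
        rw [Pool.Agent.Helper65.LinSpace.log_num, le01, if_neg h]
      simp only [h1]
      rw [ifz_zero]
      have h2 : num w < 2 ^ (n₀ + 1) := by
        have h3 := Nat.lt_pow_succ_log_self (b := 2) (by norm_num) (num w)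
        rw [Pool.Agent.Helper65.LinSpace.log_num] at h3
        exact lt_of_lt_of_le h3 (Nat.pow_le_pow_right (by norm_num) (by omega))
      have h3 : dig 2 B (num w) = if ∃ w' ∈ L, num w' = num w then 1 else 0 := by
        refine dig_tab ?_ h2
        intro i _
        split_ifs <;> norm_num
      rw [h3]
      constructor
      · intro hw
        rw [if_pos ⟨w, hw, rfl⟩]
        exact one_ne_zero
      · intro h4
        by_contra hw
        apply h4
        rw [if_neg]
        rintro ⟨w', hw', h5⟩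
        rw [Pool.Agent.Helper78.Avg.num_injective h5] at hw'
        exact hw hw'

end Pool.Agent.Helper28.Gen
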